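import Pool.Agent.Lib.MP_8e06fd_an.Final

/-!
# Every nonempty F-sigma set is the oscillating spectrum of a non-complemented subspace

Full positive answer to Q1 of MP_8e06fd_an.
-/

set_option autoImplicit false

open Pool.Agent.Lib.OscSpec in
/-- For every nonempty `F_σ` set `M ⊆ [0,1]` there is a closed linear subspace `X` of `C[0,1]`
which is not complemented in `C[0,1]` and whose oscillating spectrum is exactly `M`. -/
theorem Pool.Agent.Results.MP_8e06fd_an.NonComplementedSpectrum.result :
    ∀ M : Set I, M.Nonempty → (∃ F : ℕ → Set I, (∀ n, IsClosed (F n)) ∧ M = ⋃ n, F n) →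
      ∃ X : Submodule ℝ C(I, ℝ), IsClosed (X : Set C(I, ℝ)) ∧ ¬ Complemented X ∧
        oscSpectrum X = M := by
  rintro M hM ⟨F, hF, hMF⟩
  exact main M hM F hF hMF
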